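import Pool.Agent.H59.LIN.Targets

/-!
LIN, row CNT: counting the permutations which match two families.
-/

set_option autoImplicit false

open Finset

namespace Pool.Agent.H97.LIN

open Pool.Agent.H59.LIN

theorem eq_of_nz (pv : ℕ × ℕ → ℕ × ℕ → ℚ) (h1 : ∀ b b', mb b' ≠ mb b → pv b' b = 0)
    (h2 : ∀ b b', b'.1 < b.1 → pv b' b = 0) (r : ℕ) (ν μ : Fin r → ℕ × ℕ)
    (hs : ∑ p, (ν p).1 ≤ ∑ p, (μ p).1) (σ : Equiv.Perm (Fin r))
    (hσ : ∏ p, pv (ν p) (μ (σ p)) ≠ 0) : ∀ p, ν p = μ (σ p) := by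
  have hnz : ∀ p, pv (ν p) (μ (σ p)) ≠ 0 := fun p hp =>
    hσ (Finset.prod_eq_zero (mem_univ p) hp)
  have hm : ∀ p, mb (ν p) = mb (μ (σ p)) := fun p => by
    by_contra hc
    exact hnz p (h1 _ _ hc)
  have hl : ∀ p, (μ (σ p)).1 ≤ (ν p).1 := fun p => by
    by_contra hc
    exact hnz p (h2 _ _ (not_le.1 hc))
  have hsum : ∑ p, (μ (σ p)).1 = ∑ p, (μ p).1 := Equiv.sum_comp σ fun p => (μ p).1
  have heq : ∀ p, (μ (σ p)).1 = (ν p).1 := by
    have := (Finset.sum_eq_sum_iff_of_le (s := univ) (f := fun p => (μ (σ p)).1)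
      (g := fun p => (ν p).1) (fun p _ => hl p)).1
      (le_antisymm (Finset.sum_le_sum fun p _ => hl p) (by rw [hsum]; exact hs))
    exact fun p => this p (mem_univ p)
  intro p
  have h3 := hm p
  have h4 := heq p
  unfold mb at h3
  ext
  · exact h4.symm
  · omega

theorem card_fib {r : ℕ} (ν : Fin r → ℕ × ℕ) (b : ℕ × ℕ) :
    Fintype.card {a // ν a = b} = ((univ.val.map ν).count b) := by
  rw [Multiset.count_map, Fintype.card_subtype]
  change (univ.filter fun a => ν a = b).card = _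
  rw [Finset.card_def, Finset.filter_val]
  congr 1
  apply Multiset.filter_congr
  intro a _
  exact eq_comm

theorem ex_perm {r : ℕ} (ν μ : Fin r → ℕ × ℕ) (h : univ.val.map ν = univ.val.map μ) :
    ∃ σ : Equiv.Perm (Fin r), ∀ p, ν p = μ (σ p) := by
  have hc : ∀ b, Fintype.card {a // ν a = b} = Fintype.card {a // μ a = b} := fun b => by
    rw [card_fib, card_fib, h]
  let e : ∀ b, {a // ν a = b} ≃ {a // μ a = b} := fun b => Fintype.equivOfCardEq (hc b)
  let σ : Equiv.Perm (Fin r) := (Equiv.sigmaFiberEquiv ν).symm.trans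
    ((Equiv.sigmaCongrRight e).trans (Equiv.sigmaFiberEquiv μ))
  refine ⟨σ, fun p => ?_⟩
  change ν p = μ ((e (ν p) ⟨p, rfl⟩ : {a // μ a = ν p}) : Fin r)
  exact (e (ν p) ⟨p, rfl⟩).2.symm

theorem pf_CNT : Pool.Agent.H59.LIN.T_CNT := by
  intro pv h1 h2 h3 r ν μ
  refine ⟨fun hs hne => ?_, fun he => ?_⟩
  · refine Finset.sum_eq_zero fun σ _ => ?_
    by_contra hc
    have h4 := eq_of_nz pv h1 h2 r ν μ hs σ hc
    apply hne
    have h5 : ν = μ ∘ σ := funext h4
    rw [h5, ← Multiset.map_map]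
    congr 1
    exact congrArg Finset.val (Finset.map_univ_equiv σ)
  · obtain ⟨σ₀, hσ₀⟩ := ex_perm ν μ he
    have hs : ∑ p, (ν p).1 = ∑ p, (μ p).1 := by
      rw [Finset.sum_congr rfl fun p _ => by rw [hσ₀ p]]
      exact Equiv.sum_comp σ₀ fun p => (μ p).1
    have hterm : ∀ σ : Equiv.Perm (Fin r), ∏ p, pv (ν p) (μ (σ p)) =
        if μ ∘ σ = ν then (-1) ^ r else 0 := by
      intro σ
      split_ifs with h
      · rw [Finset.prod_congr rfl fun p _ => by
          rw [← h, Function.comp_apply, h3]]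
        rw [Finset.prod_const, card_univ, Fintype.card_fin]
      · by_contra hc
        exact h (funext fun p => (eq_of_nz pv h1 h2 r ν μ hs.le σ hc p).symm)
    rw [Finset.sum_congr rfl fun σ _ => hterm σ, Finset.sum_ite, Finset.sum_const_zero, add_zero,
      Finset.sum_const, nsmul_eq_mul, mul_comm]
    congr 1
    have hcard : (univ.filter fun σ : Equiv.Perm (Fin r) => μ ∘ σ = ν).card =
        Fintype.card {g : Equiv.Perm (Fin r) // μ ∘ g = μ} := by
      rw [Fintype.card_subtype]
      refine Finset.card_bij' (fun σ _ => σ₀.symm.trans σ) (fun τ _ => σ₀.trans τ) ?_ ?_ ?_ ?_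
      · intro σ hσ
        rw [mem_filter] at hσ ⊢
        refine ⟨mem_univ _, funext fun p => ?_⟩
        have := congrFun hσ.2 (σ₀.symm p)
        rw [Function.comp_apply, hσ₀, Equiv.apply_symm_apply] at this
        rw [Function.comp_apply, Equiv.trans_apply]
        exact this
      · intro τ hτ
        rw [mem_filter] at hτ ⊢
        refine ⟨mem_univ _, funext fun p => ?_⟩
        have := congrFun hτ.2 (σ₀ p)
        rw [Function.comp_apply] at this
        rw [Function.comp_apply, Equiv.trans_apply, this, hσ₀]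
      · intro σ _
        ext p
        simp
      · intro τ _
        ext p
        simp
    rw [hcard, DomMulAct.stabilizer_card']
    push_cast
    have h7 : (univ : Finset (Fin r)).image μ = (univ.val.map μ).toFinset := by
      ext b
      simp
    rw [h7]
    refine Finset.prod_congr rfl fun b _ => ?_
    rw [card_fib]

end Pool.Agent.H97.LIN
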